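import Mathlib
import Pool.Agent.R92.Excl.Proof

set_option autoImplicit false

/-!
# `p(8, P₃) = 14` and `s(8, P₃) ≤ 13`

The definitions of `s(n, G)` and `p(n, G)` are in `Pool.Agent.R92.Excl.Defs`, the proof is in
`Pool.Agent.R92.Excl.Proof`.
-/

namespace Pool.Agent.Results.MP_f12eed_co.PathThree

open SimpleGraph Pool.Agent.R92.Excl

/-- For the path `P₃` with three vertices, `p(8, P₃) = 14` and `s(8, P₃) ≤ 13`; in particular
`p(n, G) = s(n, G)` does not hold for all graphs `G` with at least one edge and all `n ≥ 4`. -/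
theorem result : pNum 8 (pathGraph 3) = 14 ∧ sNum 8 (pathGraph 3) ≤ 13 :=
  main

end Pool.Agent.Results.MP_f12eed_co.PathThree
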